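import Mathlib

/-!
# Number of real zeros of a sparse polynomial
-/

namespace Pool.Agent.Lib.MP_641cb6_lc

open Polynomial

theorem sv_lt_card (P : ℝ[X]) (hP : P ≠ 0) : signVariations P < P.support.card := by
  induction hn : P.support.card using Nat.strong_induction_on generalizing P with
  | _ N ih =>
    by_cases h0 : P.eraseLead = 0
    · have h1 : P = monomial P.natDegree P.leadingCoeff := by
        have := P.eraseLead_add_monomial_natDegree_leadingCoeff
        rw [h0, zero_add] at this
        exact this.symm
      rw [h1, signVariations_monomial, ← hn]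
      exact Finset.card_pos.2 (support_nonempty.2 hP)
    · have h2 : P.eraseLead.support.card < P.support.card := eraseLead_support_card_lt hP
      have h3 := ih _ (by omega) P.eraseLead h0 rfl
      have h4 := signVariations_le_eraseLead_succ P
      omega

theorem pos_zeros_lt (P : ℝ[X]) (hP : P ≠ 0) :
    (P.roots.toFinset.filter (0 < ·)).card < P.support.card := by
  refine lt_of_le_of_lt ?_ (sv_lt_card P hP)
  refine le_trans ?_ (roots_countP_pos_le_signVariations P)
  rw [Multiset.countP_eq_card_filter]
  calc (P.roots.toFinset.filter (0 < ·)).card = (P.roots.filter (0 < ·)).toFinset.card := by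
        rw [Multiset.toFinset_filter]
    _ ≤ _ := Multiset.toFinset_card_le _

theorem support_comp_neg (P : ℝ[X]) : (P.comp (-X)).support = P.support := by
  ext i
  simp only [mem_support_iff]
  rw [show (-X : ℝ[X]) = C (-1) * X by simp, comp_C_mul_X_coeff]
  simp

/-- a nonzero real polynomial with `N` terms has fewer than `2 N` zeros -/
theorem zeros_lt (P : ℝ[X]) (hP : P ≠ 0) : P.roots.toFinset.card < 2 * P.support.card := by
  have hQ : P.comp (-X) ≠ 0 := by
    intro h
    have := support_comp_neg P
    rw [h, support_zero] at this
    exact hP (support_eq_empty.1 this.symm)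
  have h1 := pos_zeros_lt P hP
  have h2 := pos_zeros_lt _ hQ
  rw [support_comp_neg] at h2
  have h3 : (P.roots.toFinset.filter (· < 0)).card ≤
      ((P.comp (-X)).roots.toFinset.filter (0 < ·)).card := by
    refine Finset.card_le_card_of_injOn (fun x => -x) ?_ (fun a _ b _ h => neg_injective h)
    intro x hx
    simp only [Finset.coe_filter, Multiset.mem_toFinset, mem_roots hP, mem_roots hQ,
      Set.mem_ofPred_eq, IsRoot.def] at hx ⊢
    refine ⟨?_, by linarith [hx.2]⟩
    rw [eval_comp]
    simpa using hx.1
  have h4 : P.roots.toFinset ⊆ (P.roots.toFinset.filter (0 < ·)) ∪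
      (P.roots.toFinset.filter (· < 0)) ∪ {0} := by
    intro x hx
    simp only [Finset.mem_union, Finset.mem_filter, Finset.mem_singleton, hx, true_and]
    rcases lt_trichotomy x 0 with h | h | h
    · exact Or.inl (Or.inr h)
    · exact Or.inr h
    · exact Or.inl (Or.inl h)
  have h5 := Finset.card_le_card h4
  have h6 := Finset.card_union_le ((P.roots.toFinset.filter (0 < ·)) ∪
      (P.roots.toFinset.filter (· < 0))) {0}
  have h7 := Finset.card_union_le (P.roots.toFinset.filter (0 < ·))
      (P.roots.toFinset.filter (· < 0))
  rw [Finset.card_singleton] at h6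
  omega

theorem encard_zeros (P : ℝ[X]) (hP : P ≠ 0) :
    {x | P.eval x = 0}.encard = P.roots.toFinset.card := by
  have : {x | P.eval x = 0} = (P.roots.toFinset : Set ℝ) := by
    ext x
    simp [mem_roots hP]
  rw [this, Set.encard_coe_eq_coe_finsetCard]

end Pool.Agent.Lib.MP_641cb6_lc
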