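import Pool.Agent.Lib.MP_641cb6_lc.CTree
import Pool.Agent.Lib.MP_641cb6_lc.Descartes

/-!
# Sums of roots and entire tests
-/

namespace Pool.Agent.Lib.MP_641cb6_lc

open Topology Filter Set

/-- the nonvanishing set of a nonzero entire function is dense -/
theorem dense_ne_zeroC {E : Type} [NormedAddCommGroup E] [NormedSpace ℂ E] [CompleteSpace E]
    {F : E → ℂ} (hF : AnalyticOnNhd ℂ F univ) (h0 : ∃ x, F x ≠ 0) : Dense {x | F x ≠ 0} := by
  have : NormedSpace ℝ E := NormedSpace.restrictScalars ℝ ℂ E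
  rw [dense_iff_inter_open]
  intro U hU ⟨z, hz⟩
  by_contra hcon
  have h1 : ∀ x ∈ U, F x = 0 := by
    intro x hx
    by_contra h2
    exact hcon ⟨x, hx, h2⟩
  have h2 : F =ᶠ[𝓝 z] 0 := by
    filter_upwards [hU.mem_nhds hz] with x hx
    exact h1 x hx
  have h3 := hF.eqOn_zero_of_preconnected_of_eventuallyEq_zero isPreconnected_univ (mem_univ z) h2
  obtain ⟨x, hx⟩ := h0
  exact hx (h3 (mem_univ x))

theorem cont_of_analyticC {E G : Type} [NormedAddCommGroup E] [NormedSpace ℂ E]
    [NormedAddCommGroup G] [NormedSpace ℂ G] {F : E → G} (hF : AnalyticOnNhd ℂ F univ) :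
    Continuous F :=
  continuousOn_univ.1 hF.continuousOn

/-- parametrisation of the problem -/
noncomputable def parC (n m : ℕ) (t : Fin n → ℂ) : (Fin n → ℂ) × ℂ :=
  (fun i => t i ^ 2 ^ m, ∑ i, t i)

theorem coord_analyticC {n : ℕ} (i : Fin n) (t : Fin n → ℂ) :
    AnalyticAt ℂ (fun t : Fin n → ℂ => t i) t :=
  (ContinuousLinearMap.proj (R := ℂ) (φ := fun _ : Fin n => ℂ) i).analyticAt t

theorem parC_analytic (n m : ℕ) : AnalyticOnNhd ℂ (parC n m) univ := by
  intro t _
  refine AnalyticAt.prod ?_ ?_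
  · exact AnalyticAt.pi fun i => (coord_analyticC i t).pow _
  · exact Finset.analyticAt_fun_sum _ fun i _ => coord_analyticC i t

theorem parC_mem {n m : ℕ} (t : Fin n → ℂ) : parC n m t ∈ PowSum n m :=
  ⟨t, fun _ => rfl, rfl⟩

/-- the problem has finitely many points on each vertical line -/
theorem finite_fibre {n m : ℕ} (a : Fin n → ℂ) : {b | (a, b) ∈ PowSum n m}.Finite := by
  have h1 : ∀ i, {y : ℂ | y ^ 2 ^ m = a i}.Finite := by
    intro i
    have h2 : ((Polynomial.X ^ 2 ^ m - Polynomial.C (a i) : Polynomial ℂ)) ≠ 0 :=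
      Polynomial.X_pow_sub_C_ne_zero (by positivity) _
    refine (Polynomial.finite_setOfPred_isRoot h2).subset ?_
    intro y hy
    have hy' : y ^ 2 ^ m = a i := hy
    simp [Polynomial.IsRoot.def, hy']
  have h2 : (Set.pi univ fun i => {y : ℂ | y ^ 2 ^ m = a i}).Finite := Set.Finite.pi h1
  refine (h2.image fun y => ∑ i, y i).subset ?_
  rintro b ⟨y, hy, hb⟩
  exact ⟨y, fun i _ => hy i, hb.symm⟩

/-- near a point where the tests on its run do not vanish the run is the same -/
theorem run_locally_constC {X : Type} [TopologicalSpace X] {T : EqTree X}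
    (hc : ∀ h g, T h = .test g → Continuous g) {z : X} {k : ℕ}
    (hz : ∀ j < k, ∀ g, T (T.run z j) = .test g → g z ≠ 0 ∨ ∀ x, g x = 0) :
    ∀ᶠ x in 𝓝 z, T.run x k = T.run z k := by
  induction k with
  | zero => exact Eventually.of_forall fun x => rfl
  | succ k ih =>
    have h1 := ih fun j hj => hz j (by omega)
    have hzk := hz k (by omega)
    cases hT : T (T.run z k) with
    | answer b =>
      filter_upwards [h1] with x hx
      rw [EqTree.run_succ, EqTree.run_succ, hx, hT]
    | test g =>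
      have h2 : ∀ᶠ x in 𝓝 z, decide (g x = 0) = decide (g z = 0) := by
        rcases hzk g hT with h | h
        · filter_upwards [(hc _ g hT).continuousAt.eventually_ne h] with x hx
          rw [decide_eq_decide]
          exact ⟨fun h' => absurd h' hx, fun h' => absurd h' h⟩
        · exact Eventually.of_forall fun x => by rw [h x, h z]
      filter_upwards [h1, h2] with x hx hx2
      rw [EqTree.run_succ, EqTree.run_succ, hx, hT]
      simp only [hx2]

/-- some reachable test vanishes on the whole problem but not identically -/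
theorem exists_testC {n m : ℕ} {T : EqTree ((Fin n → ℂ) × ℂ)}
    (hT : ∀ h g, T h = .test g → AnalyticOnNhd ℂ g univ) (hdec : T.Decides (PowSum n m)) :
    ∃ x k g, T (T.run x k) = .test g ∧ (∃ x, g x ≠ 0) ∧ ∀ t, g (parC n m t) = 0 := by
  classical
  -- the tests of the tree, as functions of the history
  let G : List Bool → (Fin n → ℂ) × ℂ → ℂ := fun h => match T h with
    | .test g => g
    | .answer _ => fun _ => 0
  have hG : ∀ h g, T h = .test g → G h = g := fun h g hh => by simp only [G, hh]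
  have hGa : ∀ h, AnalyticOnNhd ℂ (G h) univ := by
    intro h
    cases hh : T h with
    | test g => rw [hG h g hh]; exact hT h g hh
    | answer b =>
      have : G h = fun _ => 0 := by simp only [G, hh]
      rw [this]
      exact analyticOnNhd_const
  have hGp : ∀ h, AnalyticOnNhd ℂ (fun t => G h (parC n m t)) univ := fun h =>
    (hGa h).comp (parC_analytic n m) (mapsTo_univ _ _)
  let A : List Bool → Set (Fin n → ℂ) := fun h =>
    if ∃ t, G h (parC n m t) ≠ 0 then {t | G h (parC n m t) ≠ 0} else univ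
  have hAo : ∀ h, IsOpen (A h) := by
    intro h
    simp only [A]
    split_ifs
    · exact isOpen_ne_fun (cont_of_analyticC (hGp h)) continuous_const
    · exact isOpen_univ
  have hAd : ∀ h, Dense (A h) := by
    intro h
    simp only [A]
    split_ifs with h1
    · exact dense_ne_zeroC (hGp h) h1
    · exact dense_univ
  have hdense := dense_iInter_of_isOpen hAo hAd
  obtain ⟨t, htA⟩ := hdense.nonempty
  rw [mem_iInter] at htA
  set z := parC n m t with hz
  obtain ⟨k, b, hk, hb⟩ := hdec z
  by_contra hcon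
  push Not at hcon
  have hloc := run_locally_constC (T := T) (z := z) (k := k)
    (fun h g hg => cont_of_analyticC (hT h g hg)) (by
      intro j _ g hg
      by_contra h1
      push Not at h1
      obtain ⟨h1, h2⟩ := h1
      obtain ⟨s, hs⟩ := hcon z j g hg h2
      have h3 := htA (T.run z j)
      simp only [A] at h3
      rw [if_pos ⟨s, by rw [hG _ g hg]; exact hs⟩] at h3
      apply h3
      rw [hG _ g hg]
      exact h1)
  have hbz : b = true := hb.2 (parC_mem t)
  have hcont : Continuous fun c : ℂ => (((fun i => t i ^ 2 ^ m), c) : (Fin n → ℂ) × ℂ) := by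
    fun_prop
  have h1 : ∀ᶠ c in 𝓝 (∑ i, t i), T.run ((fun i => t i ^ 2 ^ m), c) k = T.run z k :=
    (hcont.tendsto (∑ i, t i)).eventually hloc
  have h2 : ∀ᶠ c in 𝓝[≠] (∑ i, t i), (((fun i => t i ^ 2 ^ m), c) : (Fin n → ℂ) × ℂ) ∉
      PowSum n m := by
    have hf := (finite_fibre (m := m) (fun i => t i ^ 2 ^ m)).sdiff (t := {∑ i, t i})
    have ho := hf.isClosed.isOpen_compl
    have hmem : (∑ i, t i) ∈ ({b | ((fun i => t i ^ 2 ^ m), b) ∈ PowSum n m} \ {∑ i, t i})ᶜ := by
      simp
    filter_upwards [nhdsWithin_le_nhds (ho.mem_nhds hmem), self_mem_nhdsWithin] with c hc hc'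
    intro hin
    exact hc ⟨hin, hc'⟩
  obtain ⟨c, hc1, hc2⟩ := ((h1.filter_mono nhdsWithin_le_nhds).and h2).exists
  exact hc2 ((hdec.mem_iff (by rw [hc1, hk])).1 hbz)

/-- roots of unity -/
noncomputable def rt (m : ℕ) (k : Fin (2 ^ m)) : ℂ :=
  Complex.exp (2 * Real.pi * Complex.I / (2 ^ m : ℕ)) ^ (k : ℕ)

theorem rt_prim (m : ℕ) :
    IsPrimitiveRoot (Complex.exp (2 * Real.pi * Complex.I / (2 ^ m : ℕ))) (2 ^ m) :=
  Complex.isPrimitiveRoot_exp _ (by positivity)

theorem rt_pow (m : ℕ) (k : Fin (2 ^ m)) : rt m k ^ 2 ^ m = 1 := by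
  unfold rt
  rw [pow_right_comm, (rt_prim m).pow_eq_one, one_pow]

theorem rt_inj {m : ℕ} {k l : Fin (2 ^ m)} (h : rt m k = rt m l) : k = l :=
  Fin.ext ((rt_prim m).pow_inj k.2 l.2 h)

theorem many_zerosC {n m : ℕ} {g : (Fin n → ℂ) × ℂ → ℂ} (hga : AnalyticOnNhd ℂ g univ)
    (hne : ∃ x, g x ≠ 0) (hvan : ∀ t, g (parC n m t) = 0) :
    ∃ a : Fin n → ℂ, (∃ b, g (a, b) ≠ 0) ∧ 2 ^ (m * n) ≤ {b | g (a, b) = 0}.encard := by
  obtain ⟨⟨a1, b1⟩, hne⟩ := hne
  -- an open set of parameters
  let U : Set (Fin n → ℂ) := {t | g ((fun i => t i ^ 2 ^ m), b1) ≠ 0}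
  have hU : IsOpen U := by
    refine isOpen_ne_fun ?_ continuous_const
    exact (cont_of_analyticC hga).comp (by fun_prop)
  have hUne : U.Nonempty := by
    choose t ht using fun i => IsAlgClosed.exists_pow_nat_eq (a1 i) (n := 2 ^ m) (by positivity)
    refine ⟨t, ?_⟩
    show g ((fun i => t i ^ 2 ^ m), b1) ≠ 0
    rw [show (fun i => t i ^ 2 ^ m) = a1 from funext ht]
    exact hne
  -- parameters with different sums
  let V : (Fin n → Fin (2 ^ m)) × (Fin n → Fin (2 ^ m)) → Set (Fin n → ℂ) := fun p =>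
    if p.1 = p.2 then univ else {t | ∑ i, (rt m (p.1 i) - rt m (p.2 i)) * t i ≠ 0}
  have hVo : ∀ p, IsOpen (V p) := by
    intro p
    simp only [V]
    split_ifs
    · exact isOpen_univ
    · exact isOpen_ne_fun (by fun_prop) continuous_const
  have hVd : ∀ p, Dense (V p) := by
    intro p
    simp only [V]
    split_ifs with hp
    · exact dense_univ
    · refine dense_ne_zeroC ?_ ?_
      · intro t _
        exact Finset.analyticAt_fun_sum _ fun i _ => analyticAt_const.mul (coord_analyticC i t)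
      · obtain ⟨i, hi⟩ := Function.ne_iff.1 hp
        refine ⟨Pi.single i 1, ?_⟩
        rw [Finset.sum_eq_single i]
        · rw [Pi.single_eq_same, mul_one]
          intro h
          exact hi (rt_inj (sub_eq_zero.1 h))
        · intro j _ hj
          rw [Pi.single_eq_of_ne hj, mul_zero]
        · simp
  obtain ⟨t, htU, htV⟩ := (dense_iInter_of_isOpen hVo hVd).inter_open_nonempty _ hU hUne
  rw [mem_iInter] at htV
  refine ⟨fun i => t i ^ 2 ^ m, ⟨b1, htU⟩, ?_⟩
  let F : (Fin n → Fin (2 ^ m)) → ℂ := fun k => ∑ i, rt m (k i) * t i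
  have hFinj : Function.Injective F := by
    intro k l h
    by_contra hne
    have h3 := htV (k, l)
    simp only [V, hne, if_false] at h3
    apply h3
    simp only [F] at h
    rw [← sub_eq_zero, ← Finset.sum_sub_distrib] at h
    rw [← h]
    exact Finset.sum_congr rfl fun i _ => by ring
  have hsub : range F ⊆ {b | g ((fun i => t i ^ 2 ^ m), b) = 0} := by
    rintro _ ⟨k, rfl⟩
    have h3 := hvan fun i => rt m (k i) * t i
    have h4 : parC n m (fun i => rt m (k i) * t i) = ((fun i => t i ^ 2 ^ m), F k) := by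
      unfold parC
      congr 1
      funext i
      rw [mul_pow, rt_pow, one_mul]
    rw [h4] at h3
    exact h3
  calc (2 : ℕ∞) ^ (m * n) = (univ : Set (Fin n → Fin (2 ^ m))).encard := by
        rw [Set.encard_univ, ENat.card_eq_coe_fintype_card]
        simp [pow_mul]
    _ = (range F).encard := by rw [← image_univ, hFinj.encard_image]
    _ ≤ _ := encard_le_encard hsub

theorem cplx_main {n m : ℕ} {T : EqTree ((Fin n → ℂ) × ℂ)}
    (hT : ∀ h g, T h = .test g → AnalyticOnNhd ℂ g univ) (hdec : T.Decides (PowSum n m)) :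
    ∃ x k g, T (T.run x k) = .test g ∧ ∃ a : Fin n → ℂ, (∃ b, g (a, b) ≠ 0) ∧
      2 ^ (m * n) ≤ {b | g (a, b) = 0}.encard := by
  obtain ⟨x, k, g, hg, hne, hvan⟩ := exists_testC hT hdec
  exact ⟨x, k, g, hg, many_zerosC (hT _ g hg) hne hvan⟩

end Pool.Agent.Lib.MP_641cb6_lc
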