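import Pool.Agent.Lib.MP_641cb6_lc.Cplx

/-!
# Sums of roots and polynomial equality tests
-/

namespace Pool.Agent.Lib.MP_641cb6_lc

open Set

/-- the function of a polynomial in `b` whose coefficients are polynomials in `a` -/
noncomputable def polyFunC {n : ℕ} (P : Polynomial (MvPolynomial (Fin n) ℂ))
    (x : (Fin n → ℂ) × ℂ) : ℂ :=
  (P.map (MvPolynomial.eval x.1)).eval x.2

theorem polyFunC_analytic {n : ℕ} (P : Polynomial (MvPolynomial (Fin n) ℂ)) :
    AnalyticOnNhd ℂ (polyFunC P) univ := by
  have h1 : polyFunC P = fun x => ∑ i ∈ Finset.range (P.natDegree + 1),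
      MvPolynomial.aeval x.1 (P.coeff i) * x.2 ^ i := by
    funext x
    rw [polyFunC, Polynomial.eval_map, Polynomial.eval₂_eq_sum_range]
    rfl
  rw [h1]
  intro x _
  refine Finset.analyticAt_fun_sum _ fun i _ => ?_
  refine AnalyticAt.mul ?_ (analyticAt_snd.pow i)
  refine AnalyticAt.aeval_mvPolynomial (fun j => ?_) _
  exact ((ContinuousLinearMap.proj (R := ℂ) (φ := fun _ : Fin n => ℂ) j).comp
    (ContinuousLinearMap.fst ℂ (Fin n → ℂ) ℂ)).analyticAt x

/-- a complex polynomial with `N` terms has fewer than `2 N` real zeros -/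
theorem real_zeros_lt {Q : Polynomial ℂ} (hQ : Q ≠ 0) {Z : Finset ℝ}
    (hZ : ∀ x ∈ Z, Q.eval (x : ℂ) = 0) : Z.card < 2 * Q.support.card := by
  let R : Polynomial ℝ := ∑ i ∈ Q.support, Polynomial.monomial i (Q.coeff i).re
  let J : Polynomial ℝ := ∑ i ∈ Q.support, Polynomial.monomial i (Q.coeff i).im
  have hRc : ∀ i, R.coeff i = (Q.coeff i).re := by
    intro i
    simp only [R, Polynomial.finsetSum_coeff, Polynomial.coeff_monomial]
    rw [Finset.sum_ite_eq']
    split_ifs with h
    · rfl
    · rw [Polynomial.notMem_support_iff.1 h]; rfl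
  have hJc : ∀ i, J.coeff i = (Q.coeff i).im := by
    intro i
    simp only [J, Polynomial.finsetSum_coeff, Polynomial.coeff_monomial]
    rw [Finset.sum_ite_eq']
    split_ifs with h
    · rfl
    · rw [Polynomial.notMem_support_iff.1 h]; rfl
  have hev : ∀ x : ℝ, Q.eval (x : ℂ) = ⟨R.eval x, J.eval x⟩ := by
    intro x
    rw [Polynomial.eval_eq_sum, Polynomial.sum]
    apply Complex.ext
    · rw [Complex.re_sum]
      simp only [R, Polynomial.eval_finsetSum, Polynomial.eval_monomial]
      refine Finset.sum_congr rfl fun i _ => ?_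
      rw [← Complex.ofReal_pow, Complex.re_mul_ofReal]
    · rw [Complex.im_sum]
      simp only [J, Polynomial.eval_finsetSum, Polynomial.eval_monomial]
      refine Finset.sum_congr rfl fun i _ => ?_
      rw [← Complex.ofReal_pow, Complex.im_mul_ofReal]
  have hcase : R ≠ 0 ∨ J ≠ 0 := by
    by_contra hcon
    push Not at hcon
    apply hQ
    ext i
    apply Complex.ext
    · rw [← hRc, hcon.1]; simp
    · rw [← hJc, hcon.2]; simp
  rcases hcase with h | h
  · have h1 : Z ⊆ R.roots.toFinset := by
      intro x hx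
      rw [Multiset.mem_toFinset, Polynomial.mem_roots h, Polynomial.IsRoot.def]
      have := hZ x hx
      rw [hev] at this
      exact congrArg Complex.re this
    have h2 : R.support ⊆ Q.support := by
      intro i hi
      rw [Polynomial.mem_support_iff] at hi ⊢
      intro h0
      apply hi
      rw [hRc, h0]; rfl
    have := Finset.card_le_card h1
    have := Finset.card_le_card h2
    have := zeros_lt R h
    omega
  · have h1 : Z ⊆ J.roots.toFinset := by
      intro x hx
      rw [Multiset.mem_toFinset, Polynomial.mem_roots h, Polynomial.IsRoot.def]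
      have := hZ x hx
      rw [hev] at this
      exact congrArg Complex.im this
    have h2 : J.support ⊆ Q.support := by
      intro i hi
      rw [Polynomial.mem_support_iff] at hi ⊢
      intro h0
      apply hi
      rw [hJc, h0]; rfl
    have := Finset.card_le_card h1
    have := Finset.card_le_card h2
    have := zeros_lt J h
    omega

/-- signs -/
def sg (ε : Bool) : ℝ := if ε then 1 else -1

theorem sg_pow {m : ℕ} (hm : 0 < m) (ε : Bool) : ((sg ε : ℝ) : ℂ) ^ 2 ^ m = 1 := by
  obtain ⟨k, rfl⟩ := Nat.exists_eq_add_of_lt hm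
  have h : (((sg ε : ℝ) : ℂ)) ^ 2 = 1 := by cases ε <;> simp [sg]
  rw [show 2 ^ (0 + k + 1) = 2 * 2 ^ k by rw [zero_add, pow_succ]; ring, pow_mul, h, one_pow]

theorem cplx_poly {n m : ℕ} (hm : 0 < m) {T : EqTree ((Fin n → ℂ) × ℂ)}
    (hT : ∀ h g, T h = .test g → ∃ P, g = polyFunC P) (hdec : T.Decides (PowSum n m)) :
    ∃ x k P, T (T.run x k) = .test (polyFunC P) ∧ 2 ^ (m * n) ≤ P.natDegree ∧
      2 ^ n < 2 * P.support.card := by
  classical
  have hTa : ∀ h g, T h = .test g → AnalyticOnNhd ℂ g univ := by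
    intro h g hg
    obtain ⟨P, rfl⟩ := hT h g hg
    exact polyFunC_analytic P
  obtain ⟨x, k, g, hg, ⟨⟨a1, b1⟩, hne⟩, hvan⟩ := exists_testC hTa hdec
  obtain ⟨P, rfl⟩ := hT _ g hg
  refine ⟨x, k, P, hg, ?_⟩
  have hP0 : P ≠ 0 := by
    rintro rfl
    apply hne
    simp [polyFunC]
  -- a nonzero polynomial in the parameters
  let c : MvPolynomial (Fin n) ℂ :=
    MvPolynomial.bind₁ (fun i => MvPolynomial.X i ^ 2 ^ m) P.leadingCoeff
  have hc : ∀ t : Fin n → ℂ, MvPolynomial.eval t c =
      MvPolynomial.eval (fun i => t i ^ 2 ^ m) P.leadingCoeff := by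
    intro t
    have h := MvPolynomial.eval₂Hom_bind₁ (RingHom.id ℂ) t
      (fun i : Fin n => (MvPolynomial.X i ^ 2 ^ m : MvPolynomial (Fin n) ℂ)) P.leadingCoeff
    simp only [map_pow, MvPolynomial.eval₂Hom_X'] at h
    exact h
  have hc0 : c ≠ 0 := by
    intro h0
    have hl : P.leadingCoeff ≠ 0 := Polynomial.leadingCoeff_ne_zero.2 hP0
    apply hl
    apply MvPolynomial.funext
    intro a
    choose t ht using fun i => IsAlgClosed.exists_pow_nat_eq (a i) (n := 2 ^ m) (by positivity)
    have h1 := hc t
    rw [h0, map_zero, show (fun i => t i ^ 2 ^ m) = a from funext ht] at h1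
    rw [← h1, map_zero]
  let D : MvPolynomial (Fin n) ℂ := ∏ p : (Fin n → Bool) × (Fin n → Bool),
    if p.1 = p.2 then 1 else
      ∑ i, MvPolynomial.C (((sg (p.1 i) : ℝ) : ℂ) - ((sg (p.2 i) : ℝ) : ℂ)) * MvPolynomial.X i
  have hD0 : D ≠ 0 := by
    rw [Finset.prod_ne_zero_iff]
    intro p _
    split_ifs with hp
    · exact one_ne_zero
    · obtain ⟨i, hi⟩ := Function.ne_iff.1 hp
      intro h0
      have h1 := congrArg (MvPolynomial.eval (Pi.single i (1 : ℂ))) h0
      rw [map_zero, map_sum, Finset.sum_eq_single i] at h1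
      · rw [map_mul, MvPolynomial.eval_C, MvPolynomial.eval_X, Pi.single_eq_same, mul_one] at h1
        apply hi
        revert h1
        cases p.1 i <;> cases p.2 i <;> norm_num [sg]
      · intro j _ hj
        rw [map_mul, MvPolynomial.eval_X, Pi.single_eq_of_ne hj, mul_zero]
      · simp
  have hex : ∃ r : Fin n → ℝ, MvPolynomial.eval (fun i => (r i : ℂ)) (c * D) ≠ 0 := by
    by_contra hcon
    push Not at hcon
    apply mul_ne_zero hc0 hD0
    apply MvPolynomial.funext_set (fun _ => range ((↑) : ℝ → ℂ))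
      (fun _ => infinite_range_of_injective Complex.ofReal_injective)
    intro y hy
    choose r hr using fun i => hy i (mem_univ i)
    rw [← show (fun i => (r i : ℂ)) = y from funext hr, hcon, map_zero]
  obtain ⟨r, hr⟩ := hex
  rw [map_mul] at hr
  have hr1 := left_ne_zero_of_mul hr
  have hr2 := right_ne_zero_of_mul hr
  rw [hc] at hr1
  let a : Fin n → ℂ := fun i => (r i : ℂ) ^ 2 ^ m
  let Q := P.map (MvPolynomial.eval a)
  have hQ0 : Q ≠ 0 := by
    intro h0
    apply hr1
    have h1 : Q.coeff P.natDegree = 0 := by rw [h0, Polynomial.coeff_zero]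
    rw [Polynomial.coeff_map] at h1
    exact h1
  constructor
  · obtain ⟨a', ⟨b', hb'⟩, hcard⟩ := many_zerosC (polyFunC_analytic P) ⟨_, hne⟩ hvan
    let Q' := P.map (MvPolynomial.eval a')
    have hQ' : Q' ≠ 0 := by
      intro h
      apply hb'
      show Q'.eval b' = 0
      rw [h, Polynomial.eval_zero]
    have h1 : {b | polyFunC P (a', b) = 0} = (Q'.roots.toFinset : Set ℂ) := by
      ext b
      simp only [mem_ofPred_eq, Finset.mem_coe, Multiset.mem_toFinset, Polynomial.mem_roots hQ',
        Polynomial.IsRoot.def]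
      rfl
    rw [h1, Set.encard_coe_eq_coe_finsetCard] at hcard
    have h2 : 2 ^ (m * n) ≤ Q'.roots.toFinset.card := by exact_mod_cast hcard
    calc 2 ^ (m * n) ≤ Q'.roots.toFinset.card := h2
      _ ≤ Multiset.card Q'.roots := Multiset.toFinset_card_le _
      _ ≤ Q'.natDegree := Q'.card_roots'
      _ ≤ P.natDegree := Polynomial.natDegree_map_le
  · let F : (Fin n → Bool) → ℝ := fun ε => ∑ i, sg (ε i) * r i
    have hFinj : Function.Injective F := by
      intro ε ε' h
      by_contra hne
      rw [map_prod] at hr2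
      have h3 := Finset.prod_ne_zero_iff.1 hr2 (ε, ε') (Finset.mem_univ _)
      simp only [hne, if_false] at h3
      apply h3
      rw [map_sum]
      simp only [map_mul, MvPolynomial.eval_C, MvPolynomial.eval_X]
      have h4 : ((∑ i, (sg (ε i) - sg (ε' i)) * r i : ℝ) : ℂ) = 0 := by
        rw [Complex.ofReal_eq_zero]
        simp only [F] at h
        rw [← sub_eq_zero, ← Finset.sum_sub_distrib] at h
        rw [← h]
        exact Finset.sum_congr rfl fun i _ => by ring
      rw [← h4]
      push_cast
      rfl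
    have hz := real_zeros_lt hQ0 (Z := Finset.univ.image F) (by
      intro x hx
      rw [Finset.mem_image] at hx
      obtain ⟨ε, -, rfl⟩ := hx
      have h3 := hvan fun i => ((sg (ε i) : ℝ) : ℂ) * (r i : ℂ)
      have h4 : parC n m (fun i => ((sg (ε i) : ℝ) : ℂ) * (r i : ℂ)) = (a, ((F ε : ℝ) : ℂ)) := by
        unfold parC
        congr 1
        · funext i
          rw [mul_pow, sg_pow hm, one_mul]
        · simp only [F]
          push_cast
          rfl
      rw [h4] at h3
      exact h3)
    rw [Finset.card_image_of_injective _ hFinj] at hz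
    have h4 : Q.support.card ≤ P.support.card :=
      Finset.card_le_card (Polynomial.support_map_subset _ _)
    simp only [Finset.card_univ, Fintype.card_fun, Fintype.card_bool, Fintype.card_fin] at hz
    omega

end Pool.Agent.Lib.MP_641cb6_lc
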