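import Pool.Agent.Lib.MP_641cb6_lc.Real
import Pool.Agent.Lib.MP_641cb6_lc.Descartes

/-!
# The complement of the problem; polynomial tests
-/

namespace Pool.Agent.Lib.MP_641cb6_lc

open Set

theorem dbl_mem {y : ℝ} (h : -1 ≤ y ∧ y ≤ 1) : -1 ≤ dbl y ∧ dbl y ≤ 1 := by
  unfold dbl
  constructor <;> nlinarith [h.1, h.2, mul_self_nonneg y]

theorem dbl_iter_mem {y : ℝ} (h : -1 ≤ y ∧ y ≤ 1) (m : ℕ) :
    -1 ≤ dbl^[m] y ∧ dbl^[m] y ≤ 1 := by
  induction m with
  | zero => exact h
  | succ m ih =>
    rw [Function.iterate_succ_apply']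
    exact dbl_mem ih

/-- nonnegative iterates force the largest root -/
theorem arccos_le {m : ℕ} {y : ℝ} (hy : y ≤ 1) (h : ∀ j < m, 0 ≤ dbl^[j] y) (hy' : -1 ≤ y) :
    2 ^ m * Real.arccos y ≤ Real.pi := by
  induction m with
  | zero => simpa using Real.arccos_le_pi y
  | succ m ih =>
    have h1 := ih fun j hj => h j (by omega)
    have h2 := h m (by omega)
    have h3 : Real.cos (Real.arccos y) = y := Real.cos_arccos hy' hy
    rw [← h3, dbl_iter_cos] at h2
    have h4 : 2 ^ m * Real.arccos y ≤ Real.pi / 2 := by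
      by_contra hcon
      push Not at hcon
      have := Real.cos_neg_of_pi_div_two_lt_of_lt hcon (by have := Real.pi_pos; linarith)
      linarith
    calc (2 : ℝ) ^ (m + 1) * Real.arccos y = 2 * (2 ^ m * Real.arccos y) := by ring
      _ ≤ 2 * (Real.pi / 2) := by linarith
      _ = Real.pi := by ring

theorem compl_iff {n m : ℕ} (p : (Fin n → ℝ) × ℝ) : p ∉ RootSum n m ↔
    (∃ i, ¬ (-1 ≤ p.1 i ∧ p.1 i ≤ 1)) ∨
    ∃ y : Fin n → ℝ, (∀ i, y i ≤ 1 ∧ (∀ j < m, 0 ≤ dbl^[j] (y i)) ∧ dbl^[m] (y i) = p.1 i) ∧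
      ∑ i, y i < p.2 := by
  constructor
  · intro hp
    by_cases h : ∃ i, ¬ (-1 ≤ p.1 i ∧ p.1 i ≤ 1)
    · exact Or.inl h
    · right
      push Not at h
      have h1 : ∀ i, Real.cos (Real.arccos (p.1 i)) = p.1 i := fun i =>
        Real.cos_arccos (h i).1 (h i).2
      have h2 : ∀ i, dbl^[m] (Real.cos (Real.arccos (p.1 i) / 2 ^ m)) = p.1 i := by
        intro i
        rw [dbl_iter_cos, mul_div_cancel₀ _ (by positivity), h1]
      refine ⟨fun i => Real.cos (Real.arccos (p.1 i) / 2 ^ m), fun i => ⟨Real.cos_le_one _, ?_,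
        h2 i⟩, ?_⟩
      · intro j hj
        rw [dbl_iter_cos]
        apply Real.cos_nonneg_of_neg_pi_div_two_le_of_le
        · have := Real.arccos_nonneg (p.1 i)
          have := Real.pi_pos
          have h3 : 0 ≤ 2 ^ j * (Real.arccos (p.1 i) / 2 ^ m) := by positivity
          linarith
        · obtain ⟨k, rfl⟩ := Nat.exists_eq_add_of_lt hj
          have h3 : (2 : ℝ) ^ j * (Real.arccos (p.1 i) / 2 ^ (j + k + 1)) =
              Real.arccos (p.1 i) / 2 ^ (k + 1) := by
            rw [add_assoc, pow_add]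
            field_simp
          rw [h3, div_le_div_iff₀ (by positivity) (by norm_num)]
          have h4 : (2 : ℝ) ≤ 2 ^ (k + 1) := by
            calc (2 : ℝ) = 2 ^ 1 := by norm_num
              _ ≤ 2 ^ (k + 1) := pow_le_pow_right₀ (by norm_num) (by omega)
          nlinarith [Real.arccos_nonneg (p.1 i), Real.arccos_le_pi (p.1 i), Real.pi_pos]
      · by_contra hcon
        push Not at hcon
        exact hp ⟨fun i => Real.cos (Real.arccos (p.1 i) / 2 ^ m), fun i =>
          ⟨Real.neg_one_le_cos _, Real.cos_le_one _, h2 i⟩, hcon⟩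
  · rintro (⟨i, hi⟩ | ⟨y, hy, hsum⟩) ⟨y', hy', hsum'⟩
    · apply hi
      rw [← (hy' i).2.2]
      exact dbl_iter_mem ⟨(hy' i).1, (hy' i).2.1⟩ m
    · have h1 : ∀ i, y' i ≤ y i := by
        intro i
        by_contra hcon
        push Not at hcon
        by_cases hm : m = 0
        · subst hm
          have e1 := (hy i).2.2
          have e2 := (hy' i).2.2
          simp only [Function.iterate_zero, id] at e1 e2
          linarith
        · have hy0 : 0 ≤ y i := (hy i).2.1 0 (Nat.pos_of_ne_zero hm)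
          have e1 := arccos_le (hy i).1 (hy i).2.1 (by linarith)
          have c1 : Real.cos (Real.arccos (y i)) = y i := Real.cos_arccos (by linarith) (hy i).1
          have c2 : Real.cos (Real.arccos (y' i)) = y' i := Real.cos_arccos (hy' i).1 (hy' i).2.1
          have e2 : Real.arccos (y' i) < Real.arccos (y i) :=
            Real.arccos_lt_arccos (by linarith) hcon (hy' i).2.1
          have e3 : Real.cos (2 ^ m * Real.arccos (y i)) <
              Real.cos (2 ^ m * Real.arccos (y' i)) := by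
            refine Real.cos_lt_cos_of_nonneg_of_le_pi ?_ e1 ?_
            · exact mul_nonneg (by positivity) (Real.arccos_nonneg _)
            · exact mul_lt_mul_of_pos_left e2 (by positivity)
          rw [← dbl_iter_cos, ← dbl_iter_cos, c1, c2, (hy i).2.2, (hy' i).2.2] at e3
          exact lt_irrefl _ e3
      have h2 : ∑ i, y' i ≤ ∑ i, y i := Finset.sum_le_sum fun i _ => h1 i
      linarith

/-- the function of a polynomial in `b` whose coefficients are polynomials in `a` -/
noncomputable def polyFun {n : ℕ} (P : Polynomial (MvPolynomial (Fin n) ℝ))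
    (x : (Fin n → ℝ) × ℝ) : ℝ :=
  (P.map (MvPolynomial.eval x.1)).eval x.2

theorem polyFun_analytic {n : ℕ} (P : Polynomial (MvPolynomial (Fin n) ℝ)) :
    AnalyticOnNhd ℝ (polyFun P) univ := by
  have h1 : polyFun P = fun x => ∑ i ∈ Finset.range (P.natDegree + 1),
      MvPolynomial.aeval x.1 (P.coeff i) * x.2 ^ i := by
    funext x
    rw [polyFun, Polynomial.eval_map, Polynomial.eval₂_eq_sum_range]
    rfl
  rw [h1]
  intro x _
  refine Finset.analyticAt_fun_sum _ fun i _ => ?_
  refine AnalyticAt.mul ?_ (analyticAt_snd.pow i)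
  refine AnalyticAt.aeval_mvPolynomial (fun j => ?_) _
  exact ((ContinuousLinearMap.proj (R := ℝ) (φ := fun _ : Fin n => ℝ) j).comp
    (ContinuousLinearMap.fst ℝ (Fin n → ℝ) ℝ)).analyticAt x

theorem poly_main {n m : ℕ} {T : DecTree ((Fin n → ℝ) × ℝ)}
    (hT : ∀ h g, T h = .test g → ∃ P, g = polyFun P) (hdec : T.Decides (RootSum n m)) :
    ∃ x k P, T (T.run x k) = .test (polyFun P) ∧ 2 ^ (m * n) ≤ P.natDegree ∧
      2 ^ (m * n) < 2 * P.support.card := by
  obtain ⟨x, k, g, hg, a, ⟨b, hb⟩, hcard⟩ := real_main (T := T) (fun h g hg => by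
    obtain ⟨P, rfl⟩ := hT h g hg
    exact polyFun_analytic P) hdec
  obtain ⟨P, rfl⟩ := hT _ g hg
  refine ⟨x, k, P, hg, ?_⟩
  let Q := P.map (MvPolynomial.eval a)
  have hQ0 : Q ≠ 0 := by
    intro h
    apply hb
    show Q.eval b = 0
    rw [h, Polynomial.eval_zero]
  have h1 : {b | polyFun P (a, b) = 0}.encard = Q.roots.toFinset.card := encard_zeros Q hQ0
  rw [h1] at hcard
  have h2 : 2 ^ (m * n) ≤ Q.roots.toFinset.card := by exact_mod_cast hcard
  constructor
  · calc 2 ^ (m * n) ≤ Q.roots.toFinset.card := h2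
      _ ≤ Multiset.card Q.roots := Multiset.toFinset_card_le _
      _ ≤ Q.natDegree := Q.card_roots'
      _ ≤ P.natDegree := Polynomial.natDegree_map_le
  · have h3 := zeros_lt Q hQ0
    have h4 : Q.support.card ≤ P.support.card :=
      Finset.card_le_card (Polynomial.support_map_subset _ _)
    omega

end Pool.Agent.Lib.MP_641cb6_lc
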