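import Mathlib

/-!
# Branching programs with sign tests
-/

namespace Pool.Agent.Lib.MP_641cb6_lc

/-- A node of a decision tree on inputs from `X`: a branch on whether `0 ≤ g x`, or a leaf with
an answer. -/
inductive Node (X : Type)
  | test (g : X → ℝ)
  | answer (b : Bool)

/-- A decision tree with sign tests, possibly infinite: `T h` is the node that is reached after
the outcomes `h` of the tests made so far (the latest outcome comes first). -/
def DecTree (X : Type) : Type := List Bool → Node X

/-- The outcomes of the tests after `k` steps on the input `x` (a leaf is never left). -/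
noncomputable def DecTree.run {X : Type} (T : DecTree X) (x : X) : ℕ → List Bool
  | 0 => []
  | k + 1 => match T (DecTree.run T x k) with
    | .test g => decide (0 ≤ g x) :: DecTree.run T x k
    | .answer _ => DecTree.run T x k

/-- The tree decides the set `S`: on every input a leaf is reached after finitely many steps, and
its answer is `true` iff the input is in `S`. -/
def DecTree.Decides {X : Type} (T : DecTree X) (S : Set X) : Prop :=
  ∀ x, ∃ (k : ℕ) (b : Bool), T (T.run x k) = .answer b ∧ (b = true ↔ x ∈ S)

theorem DecTree.run_stable {X : Type} {T : DecTree X} {x : X} {k : ℕ} {b : Bool}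
    (h : T (T.run x k) = .answer b) (j : ℕ) : T.run x (k + j) = T.run x k := by
  induction j with
  | zero => rfl
  | succ j ih =>
    rw [← Nat.add_assoc]
    show (match T (DecTree.run T x (k + j)) with
      | .test g => decide (0 ≤ g x) :: DecTree.run T x (k + j)
      | .answer _ => DecTree.run T x (k + j)) = _
    rw [ih, h]

theorem DecTree.answer_unique {X : Type} {T : DecTree X} {x : X} {k k' : ℕ} {b b' : Bool}
    (h : T (T.run x k) = .answer b) (h' : T (T.run x k') = .answer b') : b = b' := by
  rcases le_total k k' with hk | hk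
  · obtain ⟨j, rfl⟩ := Nat.exists_eq_add_of_le hk
    rw [T.run_stable h, h] at h'
    exact Node.answer.inj h'
  · obtain ⟨j, rfl⟩ := Nat.exists_eq_add_of_le hk
    rw [T.run_stable h', h'] at h
    exact (Node.answer.inj h).symm

theorem DecTree.Decides.mem_iff {X : Type} {T : DecTree X} {S : Set X} (hT : T.Decides S) {x : X}
    {k : ℕ} {b : Bool} (h : T (T.run x k) = .answer b) : b = true ↔ x ∈ S := by
  obtain ⟨k', b', h1, h2⟩ := hT x
  rw [T.answer_unique h h1]
  exact h2

/-- The map `t ↦ 2 t ^ 2 - 1`. -/
def dbl (t : ℝ) : ℝ := 2 * t * t - 1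

/-- The instances `(a, b)` such that for some `y` in `[-1, 1] ^ n` the `m`-th iterate of
`t ↦ 2 t ^ 2 - 1` maps each `y i` to `a i`, and `b ≤ y 0 + ... + y (n - 1)`. -/
def RootSum (n m : ℕ) : Set ((Fin n → ℝ) × ℝ) :=
  {p | ∃ y : Fin n → ℝ, (∀ i, -1 ≤ y i ∧ y i ≤ 1 ∧ dbl^[m] (y i) = p.1 i) ∧ p.2 ≤ ∑ i, y i}

end Pool.Agent.Lib.MP_641cb6_lc
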