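import Pool.Agent.Lib.MP_641cb6_lc.Tree

/-!
# Sums of iterated roots and analytic tests
-/

namespace Pool.Agent.Lib.MP_641cb6_lc

open Topology Filter Set

/-- the nonvanishing set of a nonzero analytic function is dense -/
theorem dense_ne_zero {E : Type} [NormedAddCommGroup E] [NormedSpace ℝ E] [CompleteSpace E]
    {F : E → ℝ} (hF : AnalyticOnNhd ℝ F univ) (h0 : ∃ x, F x ≠ 0) : Dense {x | F x ≠ 0} := by
  rw [dense_iff_inter_open]
  intro U hU ⟨z, hz⟩
  by_contra hcon
  have h1 : ∀ x ∈ U, F x = 0 := by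
    intro x hx
    by_contra h2
    exact hcon ⟨x, hx, h2⟩
  have h2 : F =ᶠ[𝓝 z] 0 := by
    filter_upwards [hU.mem_nhds hz] with x hx
    exact h1 x hx
  have h3 := hF.eqOn_zero_of_preconnected_of_eventuallyEq_zero isPreconnected_univ (mem_univ z) h2
  obtain ⟨x, hx⟩ := h0
  exact hx (h3 (mem_univ x))

theorem cont_of_analytic {E G : Type} [NormedAddCommGroup E] [NormedSpace ℝ E]
    [NormedAddCommGroup G] [NormedSpace ℝ G] {F : E → G} (hF : AnalyticOnNhd ℝ F univ) :
    Continuous F :=
  continuousOn_univ.1 hF.continuousOn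

theorem dbl_iter_cos (m : ℕ) (θ : ℝ) : dbl^[m] (Real.cos θ) = Real.cos (2 ^ m * θ) := by
  induction m generalizing θ with
  | zero => simp
  | succ m ih =>
    rw [Function.iterate_succ_apply]
    have h1 : dbl (Real.cos θ) = Real.cos (2 * θ) := by
      rw [dbl, Real.cos_two_mul]; ring
    rw [h1, ih]
    congr 1
    ring

/-- parametrisation of the boundary -/
noncomputable def par (n m : ℕ) (t : Fin n → ℝ) : (Fin n → ℝ) × ℝ :=
  (fun i => Real.cos (2 ^ m * t i), ∑ i, Real.cos (t i))

theorem coord_analytic {n : ℕ} (i : Fin n) (t : Fin n → ℝ) :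
    AnalyticAt ℝ (fun t : Fin n → ℝ => t i) t :=
  (ContinuousLinearMap.proj (R := ℝ) (φ := fun _ : Fin n => ℝ) i).analyticAt t

theorem cos_analytic {n : ℕ} (i : Fin n) (c d : ℝ) (t : Fin n → ℝ) :
    AnalyticAt ℝ (fun t : Fin n → ℝ => Real.cos (c * t i + d)) t := by
  have h1 : AnalyticAt ℝ (fun t : Fin n → ℝ => c * t i + d) t :=
    (analyticAt_const.mul (coord_analytic i t)).add analyticAt_const
  exact Real.analyticAt_cos.comp h1

theorem par_analytic (n m : ℕ) : AnalyticOnNhd ℝ (par n m) univ := by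
  intro t _
  refine AnalyticAt.prod ?_ ?_
  · refine AnalyticAt.pi fun i => ?_
    have h := cos_analytic i (2 ^ m) 0 t
    simpa only [add_zero] using h
  · refine Finset.analyticAt_fun_sum _ fun i _ => ?_
    have h := cos_analytic i 1 0 t
    simpa only [add_zero, one_mul] using h

theorem par_mem {n m : ℕ} (t : Fin n → ℝ) : par n m t ∈ RootSum n m :=
  ⟨fun i => Real.cos (t i), fun i => ⟨Real.neg_one_le_cos _, Real.cos_le_one _,
    dbl_iter_cos m (t i)⟩, le_rfl⟩

theorem le_cos {m : ℕ} {θ y : ℝ} (hθ : 0 < θ) (hθ' : 2 ^ m * θ < Real.pi) (hy : -1 ≤ y)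
    (hy' : y ≤ 1) (h : dbl^[m] y = Real.cos (2 ^ m * θ)) : y ≤ Real.cos θ := by
  by_contra hcon
  push Not at hcon
  have h2m : (1 : ℝ) ≤ 2 ^ m := one_le_pow₀ (by norm_num)
  have h1 : Real.cos (Real.arccos y) = y := Real.cos_arccos hy hy'
  have h2 : Real.arccos y < θ := by
    by_contra h3
    push Not at h3
    have h4 : Real.cos (Real.arccos y) ≤ Real.cos θ := by
      refine Real.cos_le_cos_of_nonneg_of_le_pi hθ.le (Real.arccos_le_pi y) h3
    rw [h1] at h4
    linarith
  have h3 : Real.cos (2 ^ m * θ) < Real.cos (2 ^ m * Real.arccos y) := by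
    refine Real.cos_lt_cos_of_nonneg_of_le_pi ?_ hθ'.le ?_
    · exact mul_nonneg (by positivity) (Real.arccos_nonneg y)
    · exact mul_lt_mul_of_pos_left h2 (by positivity)
  rw [← h, ← dbl_iter_cos, h1] at h3
  exact lt_irrefl _ h3

theorem not_mem_above {n m : ℕ} {t : Fin n → ℝ} (ht : ∀ i, 0 < t i ∧ 2 ^ m * t i < Real.pi)
    {b : ℝ} (hb : ∑ i, Real.cos (t i) < b) :
    (((fun i => Real.cos (2 ^ m * t i)), b) : (Fin n → ℝ) × ℝ) ∉ RootSum n m := by
  rintro ⟨y, hy, hsum⟩
  have h1 : ∑ i, y i ≤ ∑ i, Real.cos (t i) := Finset.sum_le_sum fun i _ =>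
    le_cos (ht i).1 (ht i).2 (hy i).1 (hy i).2.1 (hy i).2.2
  simp only at hsum
  linarith

/-- near a point where the tests on its run do not vanish the run is the same -/
theorem run_locally_const {X : Type} [TopologicalSpace X] {T : DecTree X}
    (hc : ∀ h g, T h = .test g → Continuous g) {z : X} {k : ℕ}
    (hz : ∀ j < k, ∀ g, T (T.run z j) = .test g → g z ≠ 0 ∨ ∀ x, g x = 0) :
    ∀ᶠ x in 𝓝 z, T.run x k = T.run z k := by
  induction k with
  | zero => exact Eventually.of_forall fun x => rfl
  | succ k ih =>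
    have h1 := ih fun j hj => hz j (by omega)
    have hzk := hz k (by omega)
    cases hT : T (T.run z k) with
    | answer b =>
      filter_upwards [h1] with x hx
      show (match T (T.run x k) with
        | .test g => decide (0 ≤ g x) :: T.run x k
        | .answer _ => T.run x k) = (match T (T.run z k) with
        | .test g => decide (0 ≤ g z) :: T.run z k
        | .answer _ => T.run z k)
      rw [hx, hT]
    | test g =>
      have h2 : ∀ᶠ x in 𝓝 z, decide (0 ≤ g x) = decide (0 ≤ g z) := by
        rcases hzk g hT with h | h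
        · rcases lt_or_gt_of_ne h with h | h
          · filter_upwards [(hc _ g hT).continuousAt.eventually_lt continuousAt_const h] with x hx
            rw [decide_eq_decide]
            constructor
            · intro h'; linarith
            · intro h'; linarith
          · filter_upwards [continuousAt_const.eventually_lt (hc _ g hT).continuousAt h] with x hx
            rw [decide_eq_decide]
            constructor
            · intro _; exact h.le
            · intro _; exact hx.le
        · exact Eventually.of_forall fun x => by rw [h x, h z]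
      filter_upwards [h1, h2] with x hx hx2
      show (match T (T.run x k) with
        | .test g => decide (0 ≤ g x) :: T.run x k
        | .answer _ => T.run x k) = (match T (T.run z k) with
        | .test g => decide (0 ≤ g z) :: T.run z k
        | .answer _ => T.run z k)
      rw [hx, hT]
      simp only [hx2]

/-- some reachable test vanishes on the whole boundary but not identically -/
theorem exists_test {n m : ℕ} {T : DecTree ((Fin n → ℝ) × ℝ)}
    (hT : ∀ h g, T h = .test g → AnalyticOnNhd ℝ g univ) (hdec : T.Decides (RootSum n m)) :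
    ∃ x k g, T (T.run x k) = .test g ∧ (∃ x, g x ≠ 0) ∧ ∀ t, g (par n m t) = 0 := by
  classical
  -- the tests of the tree, as functions of the history
  let G : List Bool → (Fin n → ℝ) × ℝ → ℝ := fun h => match T h with
    | .test g => g
    | .answer _ => fun _ => 0
  have hG : ∀ h g, T h = .test g → G h = g := fun h g hh => by simp only [G, hh]
  have hGa : ∀ h, AnalyticOnNhd ℝ (G h) univ := by
    intro h
    cases hh : T h with
    | test g => rw [hG h g hh]; exact hT h g hh
    | answer b =>
      have : G h = fun _ => 0 := by simp only [G, hh]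
      rw [this]
      exact analyticOnNhd_const
  have hGp : ∀ h, AnalyticOnNhd ℝ (fun t => G h (par n m t)) univ := fun h =>
    (hGa h).comp (par_analytic n m) (mapsTo_univ _ _)
  let A : List Bool → Set (Fin n → ℝ) := fun h =>
    if ∃ t, G h (par n m t) ≠ 0 then {t | G h (par n m t) ≠ 0} else univ
  have hAo : ∀ h, IsOpen (A h) := by
    intro h
    simp only [A]
    split_ifs
    · exact isOpen_ne_fun (cont_of_analytic (hGp h)) continuous_const
    · exact isOpen_univ
  have hAd : ∀ h, Dense (A h) := by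
    intro h
    simp only [A]
    split_ifs with h1
    · exact dense_ne_zero (hGp h) h1
    · exact dense_univ
  have hdense := dense_iInter_of_isOpen hAo hAd
  have hpos : IsOpen {t : Fin n → ℝ | ∀ i, 0 < t i ∧ 2 ^ m * t i < Real.pi} := by
    have : {t : Fin n → ℝ | ∀ i, 0 < t i ∧ 2 ^ m * t i < Real.pi} =
        Set.pi univ fun _ => {s : ℝ | 0 < s ∧ 2 ^ m * s < Real.pi} := by
      ext t; simp
    rw [this]
    refine isOpen_set_pi finite_univ fun _ _ => ?_
    exact (isOpen_lt continuous_const continuous_id).inter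
      (isOpen_lt (continuous_const.mul continuous_id) continuous_const)
  obtain ⟨t, ht, htA⟩ := hdense.inter_open_nonempty _ hpos ⟨fun _ => Real.pi / 2 ^ m / 2, fun i => by
    have := Real.pi_pos
    refine ⟨by positivity, ?_⟩
    rw [mul_div_assoc', mul_div_cancel₀ _ (by positivity)]
    linarith⟩
  have htpos : ∀ i, 0 < t i ∧ 2 ^ m * t i < Real.pi := ht
  rw [mem_iInter] at htA
  set z := par n m t with hz
  obtain ⟨k, b, hk, hb⟩ := hdec z
  by_contra hcon
  push Not at hcon
  have hloc := run_locally_const (T := T) (z := z) (k := k)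
    (fun h g hg => cont_of_analytic (hT h g hg)) (by
      intro j _ g hg
      by_contra h1
      push Not at h1
      obtain ⟨h1, h2⟩ := h1
      obtain ⟨s, hs⟩ := hcon z j g hg h2
      have h3 := htA (T.run z j)
      simp only [A] at h3
      rw [if_pos ⟨s, by rw [hG _ g hg]; exact hs⟩] at h3
      apply h3
      rw [hG _ g hg]
      exact h1)
  have hbz : b = true := hb.2 (par_mem t)
  have hlim : Tendsto (fun δ : ℝ => (((fun i => Real.cos (2 ^ m * t i)),
      (∑ i, Real.cos (t i)) + δ) : (Fin n → ℝ) × ℝ)) (𝓝[>] 0) (𝓝 z) := by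
    have h1 : Continuous fun δ : ℝ => (((fun i => Real.cos (2 ^ m * t i)),
      (∑ i, Real.cos (t i)) + δ) : (Fin n → ℝ) × ℝ) := by fun_prop
    have h2 := h1.tendsto 0
    simp only [add_zero] at h2
    exact h2.mono_left nhdsWithin_le_nhds
  have hev := (hlim.eventually hloc).and self_mem_nhdsWithin
  obtain ⟨δ, hδ, hδ0⟩ := hev.exists
  have h5 : T (T.run ((fun i => Real.cos (2 ^ m * t i)), (∑ i, Real.cos (t i)) + δ) k) =
      .answer b := by
    rw [hδ, hk]
  have h6 := (hdec.mem_iff h5).1 hbz
  exact not_mem_above htpos (by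
    have : (0 : ℝ) < δ := hδ0
    linarith) h6

/-- shifts -/
noncomputable def sh (m : ℕ) (k : Fin (2 ^ m)) : ℝ := 2 * Real.pi * k / 2 ^ m

theorem cos_sh (m : ℕ) (k : Fin (2 ^ m)) (s : ℝ) :
    Real.cos (2 ^ m * (s + sh m k)) = Real.cos (2 ^ m * s) := by
  have h : 2 ^ m * (s + sh m k) = 2 ^ m * s + (k : ℕ) * (2 * Real.pi) := by
    unfold sh
    field_simp
  rw [h, Real.cos_add_nat_mul_two_pi]

theorem sh_ne {m : ℕ} {k l : Fin (2 ^ m)} (h : k ≠ l) : Real.cos (sh m k - sh m l) ≠ 1 := by
  intro h1
  rw [Real.cos_eq_one_iff] at h1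
  obtain ⟨a, ha⟩ := h1
  have h2 : sh m k - sh m l = ((k : ℝ) - l) / 2 ^ m * (2 * Real.pi) := by
    unfold sh
    field_simp
  rw [h2] at ha
  have h3 : (a : ℝ) = ((k : ℝ) - l) / 2 ^ m :=
    mul_right_cancel₀ (by have := Real.pi_pos; positivity) ha
  have h4 : (a : ℝ) * 2 ^ m = (k : ℝ) - l := by
    rw [h3]; field_simp
  have h5 : a * 2 ^ m = (k : ℤ) - l := by exact_mod_cast h4
  have hk := k.2
  have hl := l.2
  have hk' : ((k : ℕ) : ℤ) < 2 ^ m := by exact_mod_cast hk
  have hl' : ((l : ℕ) : ℤ) < 2 ^ m := by exact_mod_cast hl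
  have h6 : a = 0 := by
    by_contra h0
    rcases lt_or_gt_of_ne h0 with h0 | h0
    · have : a * 2 ^ m ≤ -1 * 2 ^ m := mul_le_mul_of_nonneg_right (by omega) (by positivity)
      omega
    · have : 1 * 2 ^ m ≤ a * 2 ^ m := mul_le_mul_of_nonneg_right (by omega) (by positivity)
      omega
  rw [h6, zero_mul] at h5
  apply h
  apply Fin.ext
  omega

theorem real_main {n m : ℕ} {T : DecTree ((Fin n → ℝ) × ℝ)}
    (hT : ∀ h g, T h = .test g → AnalyticOnNhd ℝ g univ) (hdec : T.Decides (RootSum n m)) :
    ∃ x k g, T (T.run x k) = .test g ∧ ∃ a : Fin n → ℝ, (∃ b, g (a, b) ≠ 0) ∧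
      2 ^ (m * n) ≤ {b | g (a, b) = 0}.encard := by
  obtain ⟨x, k, g, hg, ⟨⟨a0, b0⟩, hne⟩, hvan⟩ := exists_test hT hdec
  refine ⟨x, k, g, hg, ?_⟩
  have hga := hT _ g hg
  -- a point with coordinates in `(-1, 1)` where `g` does not vanish
  have hpos : IsOpen {p : (Fin n → ℝ) × ℝ | ∀ i, p.1 i ∈ Ioo (-1 : ℝ) 1} := by
    have : {p : (Fin n → ℝ) × ℝ | ∀ i, p.1 i ∈ Ioo (-1 : ℝ) 1} =
        Prod.fst ⁻¹' (Set.pi univ fun _ : Fin n => Ioo (-1 : ℝ) 1) := by
      ext t; simp
    rw [this]
    exact (isOpen_set_pi finite_univ fun _ _ => isOpen_Ioo).preimage continuous_fst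
  obtain ⟨⟨a1, b1⟩, h1, h2⟩ := (dense_ne_zero hga ⟨_, hne⟩).inter_open_nonempty _ hpos
    ⟨(fun _ => 0, 0), fun i => by simp⟩
  have h1' : ∀ i, a1 i ∈ Ioo (-1 : ℝ) 1 := h1
  have h2' : g (a1, b1) ≠ 0 := h2
  -- an open set of parameters
  let U : Set (Fin n → ℝ) := {t | g ((fun i => Real.cos (2 ^ m * t i)), b1) ≠ 0}
  have hU : IsOpen U := by
    refine isOpen_ne_fun ?_ continuous_const
    exact (cont_of_analytic hga).comp (by fun_prop)
  have hUne : U.Nonempty := by
    refine ⟨fun i => Real.arccos (a1 i) / 2 ^ m, ?_⟩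
    show g ((fun i => Real.cos (2 ^ m * (Real.arccos (a1 i) / 2 ^ m))), b1) ≠ 0
    have : (fun i => Real.cos (2 ^ m * (Real.arccos (a1 i) / 2 ^ m))) = a1 := by
      funext i
      rw [mul_div_cancel₀ _ (by positivity)]
      exact Real.cos_arccos (h1' i).1.le (h1' i).2.le
    rw [this]
    exact h2'
  -- parameters with different sums
  let V : (Fin n → Fin (2 ^ m)) × (Fin n → Fin (2 ^ m)) → Set (Fin n → ℝ) := fun p =>
    if p.1 = p.2 then univ else
      {t | ∑ i, (Real.cos (t i + sh m (p.1 i)) - Real.cos (t i + sh m (p.2 i))) ≠ 0}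
  have hVo : ∀ p, IsOpen (V p) := by
    intro p
    simp only [V]
    split_ifs
    · exact isOpen_univ
    · exact isOpen_ne_fun (by fun_prop) continuous_const
  have hVd : ∀ p, Dense (V p) := by
    intro p
    simp only [V]
    split_ifs with hp
    · exact dense_univ
    · refine dense_ne_zero ?_ ?_
      · intro t _
        refine Finset.analyticAt_fun_sum _ fun i _ => ?_
        have e1 := cos_analytic i 1 (sh m (p.1 i)) t
        have e2 := cos_analytic i 1 (sh m (p.2 i)) t
        simp only [one_mul] at e1 e2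
        exact e1.sub e2
      · obtain ⟨i, hi⟩ := Function.ne_iff.1 hp
        by_contra hcon
        push Not at hcon
        have e1 := hcon fun j => if j = i then -sh m (p.2 i) else 0
        have e2 := hcon fun j => if j = i then -sh m (p.2 i) + Real.pi else 0
        rw [← Finset.add_sum_erase _ _ (Finset.mem_univ i)] at e1 e2
        have e3 : ∀ c : ℝ, ∑ j ∈ Finset.univ.erase i,
            (Real.cos ((if j = i then c else 0) + sh m (p.1 j)) -
              Real.cos ((if j = i then c else 0) + sh m (p.2 j))) =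
            ∑ j ∈ Finset.univ.erase i, (Real.cos (0 + sh m (p.1 j)) -
              Real.cos (0 + sh m (p.2 j))) := by
          intro c
          refine Finset.sum_congr rfl fun j hj => ?_
          rw [if_neg (Finset.ne_of_mem_erase hj)]
        rw [e3] at e1 e2
        simp only [if_true] at e1 e2
        have e4 : -sh m (p.2 i) + Real.pi + sh m (p.1 i) =
            (sh m (p.1 i) - sh m (p.2 i)) + Real.pi := by ring
        have e5 : -sh m (p.2 i) + Real.pi + sh m (p.2 i) = 0 + Real.pi := by ring
        have e6 : -sh m (p.2 i) + sh m (p.1 i) = sh m (p.1 i) - sh m (p.2 i) := by ring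
        have e7 : -sh m (p.2 i) + sh m (p.2 i) = 0 := by ring
        rw [e4, e5, Real.cos_add_pi, Real.cos_add_pi, Real.cos_zero] at e2
        rw [e6, e7, Real.cos_zero] at e1
        exact sh_ne hi (by linarith)
  obtain ⟨t, htU, htV⟩ := (dense_iInter_of_isOpen hVo hVd).inter_open_nonempty _ hU hUne
  rw [mem_iInter] at htV
  refine ⟨fun i => Real.cos (2 ^ m * t i), ⟨b1, htU⟩, ?_⟩
  let F : (Fin n → Fin (2 ^ m)) → ℝ := fun k => ∑ i, Real.cos (t i + sh m (k i))
  have hFinj : Function.Injective F := by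
    intro k l h
    by_contra hne
    have h3 := htV (k, l)
    simp only [V, hne, if_false] at h3
    apply h3
    simp only [F] at h
    rw [Finset.sum_sub_distrib, h, sub_self]
  have hsub : range F ⊆ {b | g ((fun i => Real.cos (2 ^ m * t i)), b) = 0} := by
    rintro _ ⟨k, rfl⟩
    have h3 := hvan fun i => t i + sh m (k i)
    have h4 : par n m (fun i => t i + sh m (k i)) =
        ((fun i => Real.cos (2 ^ m * t i)), F k) := by
      unfold par
      congr 1
      funext i
      exact cos_sh m (k i) (t i)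
    rw [h4] at h3
    exact h3
  calc (2 : ℕ∞) ^ (m * n) = (univ : Set (Fin n → Fin (2 ^ m))).encard := by
        rw [Set.encard_univ, ENat.card_eq_coe_fintype_card]
        simp [pow_mul]
    _ = (range F).encard := by rw [← image_univ, hFinj.encard_image]
    _ ≤ _ := encard_le_encard hsub

end Pool.Agent.Lib.MP_641cb6_lc
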